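import Pool.Agent.MWFE.StmtsB

/-!
# Squad MWFE, part C: the family, the reduction, the theorem (statements with proofs)

Rules as in parts A and B.  `z := 3 m + 1`.  Twins of rows of squad MWE are named; copy the file.
-/

set_option autoImplicit false

namespace Pool.Agent.MWFE

open Pool.Agent.Helper14_MV Pool.Agent.Helper2_MV Pool.Agent.MVD
open Pool.Agent.MWE (Can XX fxy dxy dx dy up cp L4 pr Xs xl isx Fs nd nr)
open Pool.Agent.MWGR (cb)

/-- **CLB** (medium; uses CL0, CL1, CLP).  A step in the class.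
PROOF. `Y = []`: then `Y' = []`, the two words are equal, uniqueness of the blocks (`Pool.Agent.MWD.H11.uniF`):
`B' r = B r` for `r ∈ R`, `e' = e`: `X' = X`.  `Y ≠ []`: FCE (`Pool.Agent.MWE.H10.fce`) for
`Bw R B ++ e = P1 ++ (Y ++ P2)`.  (a) `R = R1 ++ r :: R2`, `B r = a ++ (Y ++ c')`,
`P2 = c' ++ (3 r + 2) :: (Bw R2 B ++ e)`.  The new word is `Bw R (up B r (a ++ (Y' ++ c'))) ++ e`; uniqueness:
`B'` agrees with it on `R`, `e' = e`.  `Rt R B e r c' Λ`: if `Λ = []` take `c' = c' ++ ([] ++ [])`; otherwise FCE for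
the list `r :: R2`, the blocks `up B r c'` and the tail `e` (`Λ` is a factor of `P2`): `Λ` is in `c'`, or in a block
`r' ∈ R2` (`Bfr R r r'`; `R` has no repetitions, so `r' ≠ r`), or in `e`.  CL0 for `r = 0`, CL1 for `r = 1`
(`X' = X`), CLP (1) otherwise.  (b) `Y` in `e`: CLP (2). -/
def ClbStmt : Prop := ∀ (n : ℕ) (β : FIC) (m : ℕ) (R c X : List ℕ) (B B' : ℕ → List ℕ) (e e' : List ℕ),
  SitZ n β m R c → XX X → (∀ r, SFr (B r)) → SFr e → (∀ r, SFr (B' r)) → SFr e' →
    RR β (ExZ n m R c X) (Bw R (pz n (3 * m + 1) B) ++ e) →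
      ∀ P1 Y Y' P2 Q1 Λ Q2 : List ℕ, Bw R B ++ e = P1 ++ (Y ++ P2) →
        Bw R B' ++ e' = P1 ++ (Y' ++ P2) → P2 = Q1 ++ (Λ ++ Q2) → SFr Y → SFr Λ → Y.Perm Y' →
          Qc n Y Y' Λ →
            ∃ X', XX X' ∧ RR β (ExZ n m R c X') (Bw R (pz n (3 * m + 1) B') ++ e')

/-- **FPZ** (medium-strong; uses PWL; twin of FPR, Helper89_MWE/FPR.lean).  Projections of the big words.
PROOF. Let `F := Bq n m s c`.  (1) Blocks `r ∈ R`: block `1`: `(L4 c).flatMap (pr i j k) = 0 :: (c ++ [3])`, place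
blocks `Z3 r ↦ [3 (r - 2) + 1]`: as in FPR.  Block `0`: `hk m k'` goes to `z` if `k' = k` and is erased
otherwise, so `(T4 n m l).flatMap (pr i j k) = z^(n + [k<l]) ++ (v if l = i or l = j) ++ z^(2n - [k<l])`;
because of `i ≤ k < j` this is `tk n z 0 0` for `l = i`, `tk n z 3 1` for `l = j` and `z^(3n)` otherwise.  With the
two words `z^n` of `pz` block `0` is `z^(a0) v1 z^(a1) v2 z^(a2)`, `[v1, v2] = Xs i j s`, all exponents are `≥ 2`
(`n ≥ 2`) and congruent modulo `n` to the ones of `KZ n z [v1, v2]`: PWL (three times; it is convenient to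
treat the two orders of `i`, `j` in `s`, or to prove by induction: inserting `z^(3n)` next to a power of `z`
with exponent `≥ 2` does not change the class).  (2) `3 l`: in the blocks `0` and `1`; `hk m k`: `12 n` times
in block `0`; light letters: in block `1` and in a place block; local letters: twice in block `1`.
(3) clear. -/
def FpzStmt : Prop := ∀ (n : ℕ) (β : FIC) (m : ℕ) (R c s : List ℕ), Hz n β → Can m c →
  R.Perm (List.range (m + 2)) → s.Perm [0, 1, 2, 3] →
    (∀ i k j : ℕ, i ≤ k → k < j → j ≤ 3 → RR β (ExZ n m R c (Xs i j s))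
      (Bw R (pz n (3 * m + 1) (fun r => (Bq n m s c r).flatMap (pr i j k))))) ∧
    (∀ a ∈ FqZ n m R s c, a % 3 ≠ 2 → 2 ≤ (FqZ n m R s c).count a) ∧
    ∀ r, SFr (Bq n m s c r)

/-- **FAZ** (medium; uses DET, TRH, FPZ; twin of FAB, Helper60_MWE/FAB.lean).  The family contains the big
words, is a union of classes, and `s` is determined by `w`.
PROOF. (1) FPZ with `B = Bq n m s c`, `e = []`.  (2) DET gives `w' = Bw R B' ++ e'`.  `RR.sub` with `pr i j k`:
`Bw R (B^) ++ e^ ~ Bw R (B'^) ++ e'^` (`^` = `flatMap (pr i j k)`; `pr i j k (3 r + 2) = [3 r + 2]`); TRH with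
`Lf 0 = Rt 0 = z^n` and empty words otherwise gives the relation for the padded words (`pz`); transitivity.
(4) uniqueness of the blocks (`Pool.Agent.MWD.H11.uniF`): `B` agrees on `R` with the blocks in the definition
of `FamZ`, the tails are equal.  (3) by (4) for both: for all `i ≤ k < j` the words `ExZ (Xs i j s)`,
`ExZ (Xs i j s')` are equivalent; `Xs i j s` is `[0,3]` or `[3,0]`, so they are equal (`¬ EZ`);
rearrangements of `[0,1,2,3]` with the same `Xs i j` for all `i < j` are equal (`decide`, as in FAB). -/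
def FazStmt : Prop := ∀ (n : ℕ) (β : FIC) (m : ℕ) (R c : List ℕ), Hz n β → Can m c →
  R.Perm (List.range (m + 2)) → ¬ EZ n β m R c →
    (∀ s, s.Perm [0, 1, 2, 3] → FamZ n β m R c s (FqZ n m R s c)) ∧
    (∀ s w w', FamZ n β m R c s w → RR β w w' → FamZ n β m R c s w') ∧
    (∀ s s' w, FamZ n β m R c s w → FamZ n β m R c s' w → s = s') ∧
    ∀ (s : List ℕ) (B : ℕ → List ℕ) (e : List ℕ), (∀ r, SFr (B r)) → SFr e →
      FamZ n β m R c s (Bw R B ++ e) → ∀ i k j : ℕ, i ≤ k → k < j → j ≤ 3 →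
        RR β (ExZ n m R c (Xs i j s))
          (Bw R (pz n (3 * m + 1) (fun r => (B r).flatMap (pr i j k))) ++ e.flatMap (pr i j k))

/-- **FSZ** (strong; uses BAZ, ORZ, NFZ, FAZ; twin of FST, Helper81_MWE/FST.lean).  The structure of the words of
the family.
PROOF. The existence of the blocks is in the definition of `FamZ`.  Let `w = Bw R B ++ e`.  By FAZ (4) for
`i ≤ k < j ≤ 3` the projected blocks `(B r).flatMap (pr i j k)`, padded, and the projected tail are in the
class: apply BAZ, `SitZ.hb` (block `1` is `0 h 3`, `h` contains all letters of `c`), ORZ and NFZ.  As in FST: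
`x0`: every `x_i` is once in `B 0` and the order of `x_i`, `x_j` in `B 0` is the one of `t` (ORZ:
`fxy ((B 0).flatMap (pr i j k)) = Xs i j t`).  `x1`: in block `1` every `x_i` once, `x_i` before `x_j` for `i < j`,
and every letter of copy `k` is after `x_i` and before `x_j` for `i ≤ k < j`, so it is between `x_k` and
`x_(k+1)`.  `ne`: between `x_a` and `x_(a+1)` is the nonempty copy.  `nb`, `nc`: NFZ for `pr i (i+1) i`.  `xo`,
`xe`, `li`, `le`: BAZ (`pz` adds only letters `z` in block `0`, `3 d + 1 ≠ z` for `d < m`).  `fu`: `hb` for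
`pr a (a+1) a`. -/
def FszStmt : Prop := ∀ (n : ℕ) (β : FIC) (m : ℕ) (R c t w : List ℕ), SitZ n β m R c →
  FamZ n β m R c t w →
    (∃ (B : ℕ → List ℕ) (e : List ℕ), w = Bw R B ++ e ∧ (∀ r, SFr (B r)) ∧ SFr e) ∧
    ∀ (B : ℕ → List ℕ) (e : List ℕ), (∀ r, SFr (B r)) → SFr e → w = Bw R B ++ e → Fs m R t B e

/-- **SPZ** (easy-medium; uses nothing; twin of SPL, Helper81_MWE/SPL.lean).  The shape of the big words.
PROOF. `R = R1 ++ 0 :: (R2 ++ 1 :: R3)` (`Bfr`, `Nodup`), `U = Bw R1 _`, `V1 = 2 :: Bw R2 _`,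
`V2 = 5 :: Bw R3 _` with the place blocks. -/
def SpzStmt : Prop := ∀ (n m : ℕ) (R c : List ℕ), R.Perm (List.range (m + 2)) → Bfr R 0 1 →
  ∃ U V1 V2 : List ℕ, ∀ s : List ℕ,
    FqZ n m R s c = U ++ (s.flatMap (T4 n m) ++ (V1 ++ (L4 c ++ V2)))

/-- **SEZ** (easy-medium; uses FPZ; twin of SEP, Helper3_MWE/SEP.lean).  Images of letters which are multiple
have no separators.
PROOF. The word is `Bw R B ++ e` (definition of `FamZ`), so every separator occurs at most once in it.  If a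
separator is in `φ a`, `a % 3 ≠ 2`, then it occurs at least twice in the word, because `a` occurs at least
twice in the pattern (FPZ (2)). -/
def SezStmt : Prop := ∀ (n : ℕ) (β : FIC) (m : ℕ) (R c s t M Q : List ℕ) (φ : ℕ → List ℕ),
  SitZ n β m R c → s.Perm [0, 1, 2, 3] →
    FamZ n β m R c t (M ++ ((FqZ n m R s c).flatMap φ ++ Q)) →
      ∀ a ∈ FqZ n m R s c, a % 3 ≠ 2 → SFr (φ a)

/-- **STZ** (strong; uses YQZ, ORZ, BAZ, CLB, FAZ, SPZ, SEZ; twin of STA, Helper86_MWE/STA.lean).  The step stays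
in the family.
PROOF. SPZ: `w1 = P1 ++ (Y ++ P2)`, `w2 = P1 ++ (Y' ++ P2)`, `P1 = M ++ U.flatMap φ`,
`Y = (s.flatMap (T4 n m)).flatMap φ`, `P2 = V1.flatMap φ ++ (Λ ++ (V2.flatMap φ ++ Q))`,
`Λ = (L4 c).flatMap φ`.  `Y`, `Λ` have no separators (SEZ).  `Y = Yw n ζ A s`, `Y' = Yw n ζ A s'` with
`ζ k = φ (hk m k)`, `A l = φ (3 l)`; and `(Yw n ζ A s).flatMap g = Yw n (fun k => (ζ k).flatMap g)
(fun l => (A l).flatMap g) s`.  Let `w1 = Bw R B ++ e` (definition of `FamZ`).  The separators of `w2` are those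
of `w1`: DCM (`Pool.Agent.MWE.H59.dcm`): `w2 = Bw R B' ++ e'`.  Let `t' = xl (B' 0)`.  For `i ≤ k < j ≤ 3` let `^` be
`flatMap (pr i j k)`: YQZ for `ζ^`, `A^`, `Λ^` (all letters of `A l` are in `Λ` since `3 l ∈ L4 c`, `l < 4`):
`Y^.Perm Y'^`, `Qc n Y^ Y'^ Λ^`.  FAZ (4) and CLB for the projected words: `X'` with
`RR β (ExZ n m R c X') (Bw R (pz n z B'^) ++ e'^)`.  ORZ: `fxy ((B' 0)^) = X'`, and
`fxy ((B' 0)^) = Xs i j t'`.  `t'.Perm [0,1,2,3]`: all elements are `< 4` and every `i < 4` occurs once (BAZ,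
`x0` or `y0` for a projection with `i`). -/
def StzStmt : Prop := ∀ (n : ℕ) (β : FIC) (m : ℕ) (R c s s' t M Q : List ℕ) (φ : ℕ → List ℕ),
  SitZ n β m R c → s.Perm [0, 1, 2, 3] → s'.Perm [0, 1, 2, 3] →
    FamZ n β m R c t (M ++ ((FqZ n m R s c).flatMap φ ++ Q)) →
      ∃ t', FamZ n β m R c t' (M ++ ((FqZ n m R s' c).flatMap φ ++ Q))

/-- **NXZ** (medium; uses nothing; twin of NXL, Helper95_MWE/NXL.lean, the same proof).  If block `1` of the
pattern goes to block `1`, its image contains two neighbours `x_a`, `x_(a+1)`, and the images of the letters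
`x_i` are in block `0`, then the images of the letters of the chain contain no letters `x`.
PROOF. As NXL (see MWE/Stmts.lean): the letters of the copies of the chain occur in the pattern only in block
`1` and in the place blocks `Z3 r`, which are the same as in `Fq`. -/
def NxzStmt : Prop := ∀ (n m : ℕ) (R c s t M Q : List ℕ) (φ : ℕ → List ℕ) (B : ℕ → List ℕ)
  (e : List ℕ), Can m c → R.Perm (List.range (m + 2)) → s.Perm [0, 1, 2, 3] →
    t.Perm [0, 1, 2, 3] →
    M ++ ((FqZ n m R s c).flatMap φ ++ Q) = Bw R B ++ e → Fs m R t B e →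
    (∀ a ∈ FqZ n m R s c, a % 3 ≠ 2 → SFr (φ a)) →
    (∃ (R1 R2 A' C' : List ℕ), R = R1 ++ 1 :: R2 ∧ B 1 = A' ++ ((L4 c).flatMap φ ++ C') ∧
      ∃ (U V : List ℕ), FqZ n m R s c = U ++ (L4 c ++ V) ∧ M ++ U.flatMap φ = Bw R1 B ++ A') →
    (∀ i < 4, ∀ u ∈ φ (3 * i), u ∈ B 0) →
    (∃ (a : ℕ) (A h C : List ℕ), a < 3 ∧
      (L4 c).flatMap φ = A ++ 3 * a :: (h ++ 3 * (a + 1) :: C)) →
      ∀ k < 3, ∀ u ∈ cp k c, ∀ v ∈ φ u, ¬ isx v

/-- **SBZ** (strong; uses FAZ, FSZ, SPZ, SEZ, NXZ; twin of STB, Helper7_MWE/STB.lean).  The classes in the step.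
PROOF. Notation of STZ.  `w1 = Bw R B ++ e`, `Fs m R t B e` (FSZ).  `Y = []`: `w1 = w2`, `t = t'` (FAZ (3)).  FCE:
`Y` lies in block `rY`, `B rY = a ++ (Y ++ c')`, or in `e`; `w2` has the blocks `up B rY (a ++ (Y' ++ c'))`, so by
FSZ `t'` is `xl` of its block `0`.  If `rY ≠ 0`: `t' = t`.  Let `rY = 0`.  The words `ζ k = φ (hk m k)` occur more
than once in `Y`, so they contain no letter `x_i` (every `x_i` is once in block `0`): `xl (ζ k) = []`.  Let
`y i = xl (φ (3 i))`: `t = xl a ++ (s.flatMap y ++ xl c')`, `t' = xl a ++ (s'.flatMap y ++ xl c')`.  From here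
on as in STB: if at most one `y i`, `i < 4`, is nonempty: `t = t'`.  Otherwise `Λ` contains two letters `x`; it
lies in one block `rΛ` (FCE), and `rΛ = 1`.  If `v ∈ φ (3 i)` is an `x` then `φ (3 i) = [v]` (`nb`, `nc`, `ne`), so
`(y i).length ≤ 1`.  `Λ` contains two letters `x` which are neighbours: NXZ: the images of the letters of
`cp k c` contain no `x`, so `xl Λ = y 0 ++ y 1 ++ y 2 ++ y 3`, an infix of `[0,1,2,3]`.  `fin_step`
(Helper2_MV.Perm4). -/
def SbzStmt : Prop := ∀ (n : ℕ) (β : FIC) (m : ℕ) (R c s s' t t' M Q : List ℕ) (φ : ℕ → List ℕ),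
  SitZ n β m R c → s.Perm [0, 1, 2, 3] → s'.Perm [0, 1, 2, 3] → chk s s' = true →
    FamZ n β m R c t (M ++ ((FqZ n m R s c).flatMap φ ++ Q)) →
    FamZ n β m R c t' (M ++ ((FqZ n m R s' c).flatMap φ ++ Q)) →
      cls t' = cls t ∨ (t = s ∧ t' = s')

/-- **EAZ** (easy; uses FAZ, STZ, SBZ; twin of EEA, Helper2_MWE/EEA.lean).  Canonical chains.
PROOF. PNA (`Pool.Agent.MWE.H24.pna`) with `Fm = FamZ n β m R c`, `W s = FqZ n m R s c`: FAZ, STZ, SBZ. -/
def EazStmt : Prop := ∀ (n : ℕ) (β : FIC) (m : ℕ) (R c : List ℕ), ModF β → ¬ SitZ n β m R c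

/-- **RE0** (easy; uses nothing).  The empty word.
PROOF. `ExZ n 1 [0, 1, 2] [1] X = KZ n 4 X ++ [2, 0, 1, 3, 5, 1, 8]`.  Substitute `0 ↦ x`, `3 ↦ y`, `4 ↦ z`, `2 ↦ q`,
`1, 5, 8 ↦` empty word (`RR.sub`), context `p`, `r`. -/
def Re0Stmt : Prop := ∀ (n : ℕ) (β : FIC), EZ n β 1 [0, 1, 2] [1] → FZ n β []

/-- **REZ** (medium-strong; uses LCF; twin of RED, Helper16_MWE/RED.lean).  Reduction to canonical chains.
PROOF. `w = p ++ (tk n z x 0 ++ (tk n z y 1 ++ (q ++ x :: (c ++ y :: r))))`.  If `x ∈ c`: `c = c1 ++ x :: c2`, `x ∉ c2`: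
`nr c2 ≤ nr c`, `nd c2 < nd c`: `FZ n β c2` (`IZ`) with `q ++ x :: c1` instead of `q`.  If `y ∈ c`:
`c = c1 ++ y :: c2`, `y ∉ c1`: `FZ n β c1`.  If `z ∈ c`, `x, y ∉ c`: `g := x :: (c ++ [y])` contains `x, y, z`, all
letters of `g` are multiple; `tk n z x 0 ++ tk n z y 1` and `tk n z y 1 ++ tk n z x 0` are rearrangements of each
other, all exchanges of adjacent letters are allowed by LCF (first part): PLM
(`Pool.Agent.MWE.H11.plm`) with `P = fun _ => false`.  Otherwise let `D` be the list of the letters which occur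
once in `c`, `U` the list of the repeated letters (without repetitions), `m = D.length`; a letter of `D` is
multiple in `w` and not `x`, `y`, `z`, so it occurs in `p`, `q` or `r`.  `ρ`, `c' = c.map ρ` as in RED: `Can m c'`,
`nd c' = nd c`, `nr c' = nr c`.  `Pool.Agent.MWE.H16.ins2` with `u j = [U[j]]` for `j < U.length` and
`u U.length = [z]` gives `R`, `g`, `M`.  In `EZ n β m R c'` rename the letter `3 m + 1` (it occurs only in the
tokens) to the local letter `3 (U.length + 2)` (`RR.sub`), then substitute by `g` and multiply by `M`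
(`g 0 = [x]`, `g 3 = [y]`). -/
def RezStmt : Prop := ∀ (n : ℕ) (β : FIC) (c : List ℕ), Hz n β → IZ n β c → c ≠ [] →
  (∀ (m : ℕ) (R c' : List ℕ), Can m c' → R.Perm (List.range (m + 2)) → Bfr R 0 1 → c' ≠ [] →
    nd c' = nd c → nr c' = nr c → EZ n β m R c') → FZ n β c

/-- **FLZ** (medium; uses CPZ, CPB, EAZ, RE0, REZ; twin of FAL, Helper13_MWE/FAL.lean).  The induction.
PROOF. Strong induction on `(nr c, nd c)` (lexicographic).  `c = []`: RE0; if `¬ EZ n β 1 [0, 1, 2] [1]` then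
`SitZ n β 1 [0, 1, 2] [1]` (`Can 1 [1]`, CPB): contradiction to EAZ.  `c ≠ []`: `IZ n β c` by the induction
hypothesis (`SmL c' c` means that the pair of `c'` is smaller).  REZ: let `c'` be canonical with the same
numbers; `IZ n β c'` (`SmL` depends only on the numbers); if `¬ EZ n β m R c'` then `HbZ n β m R c'` (CPZ), so
`SitZ n β m R c'`: contradiction to EAZ. -/
def FlzStmt : Prop := ∀ (n : ℕ) (β : FIC), ModF β → Hz n β → ∀ c, FZ n β c

/-- **FFE** (easy-medium; uses PWL).  The identity FE.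
PROOF. Let `p, q, w, r, x, a, b` be as in `MWGR.FE n 1` (`MVO.Sys.Mul` is `Mult`, look at both definitions).
`FZ n β w` with the letters `(z, x, y) = (x, a, b)` and `q` replaced by `x^(n+1) ++ q`; `Mult w`: the counts of the
letters `≠ x` are the same, the count of `x` is at least `2`.  Left word: `p x^n a x^(3n+1) b x^(2n-1) x^(n+1) q ..
~ p x^n a x^(n+1) b x^n q ..` (PWL, all exponents are `≥ 2`), right word:
`p x^(n+1) b x^(3n-1) a x^(2n) x^(n+1) q .. ~ p x^(n+1) b x^(n+(n-1)) a x^(n+1) q ..` (PWL). -/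
def FfeStmt : Prop := ∀ (n : ℕ) (β : FIC), Hz n β → (∀ c, FZ n β c) → MWGR.FE n 1 (RR β)

/-- **FEQ** (medium; uses RCF, EXR, MIF, FFE, FLZ).  THE THEOREM.
PROOF. First for every `β` with `ModF`, `Iso3`, `Per n`, `It n`, `R0`, `L n`, `FF`, `ZZ`: `MWGR.FE n 1 (RR β)`: if
`RR β (cw 3 1) (cw 2 2)`: RCF.  Otherwise EXR gives `d` with `Hz d β`, FLZ and FFE give `FE d 1`, so `FE n 1`.
Apply this to `β` and to `mir β` (MIF); `MWZ.F (RR β)`, `FF β` and `MWZ.F' (RR β)`, `ZZ β` are the same formulas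
(up to the form of the words).  The facts about `β` are fields of `LRW n β` (Helper61_MWD). -/
def FeqStmt : Prop := ∀ n : ℕ, 1 ≤ n → Helper61_MWD.FeQ n

end Pool.Agent.MWFE
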