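import Pool.Agent.MWFE.StmtsA

/-!
# Squad MWFE, part B: the class of `ExZ n m R c X` (statements with proofs)

Rules as in part A.  `z := 3 m + 1` is the heavy letter, `cb D z v` the number of `z` before the first `v` in
`D`.  Twins of rows of squad MWE are named; copy the file.
-/

set_option autoImplicit false

namespace Pool.Agent.MWFE

open Pool.Agent.Helper14_MV Pool.Agent.Helper2_MV Pool.Agent.MVD
open Pool.Agent.MWE (Can XX fxy dxy dx dy up cp L4 pr Xs xl isx Fs nd nr)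
open Pool.Agent.MWGR (cb)

/-- tokens in the order `X` in front of block `0`, `x`, `y` around block `1` -/
def tbz (n m : ℕ) (B : ℕ → List ℕ) (X : List ℕ) : ℕ → List ℕ := fun r =>
  if r = 0 then KZ n (3 * m + 1) X ++ dxy (B 0) else if r = 1 then 0 :: (dxy (B 1) ++ [3]) else B r
/-- `y` deleted, its token inserted at the right end of block `0`, `y` at the right end of block `1` -/
def tyz1 (n m : ℕ) (B : ℕ → List ℕ) : ℕ → List ℕ := fun r =>
  if r = 0 then dy (B 0) ++ tk n (3 * m + 1) 3 1 else if r = 1 then dy (B 1) ++ [3] else B r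
/-- `y` deleted, its token inserted at the left end of block `0`, `y` at the right end of block `1` -/
def tyz2 (n m : ℕ) (B : ℕ → List ℕ) : ℕ → List ℕ := fun r =>
  if r = 0 then tk n (3 * m + 1) 3 1 ++ dy (B 0) else if r = 1 then dy (B 1) ++ [3] else B r
/-- `x` deleted, its token inserted at the left end of block `0`, `x` at the left end of block `1` -/
def txz1 (n m : ℕ) (B : ℕ → List ℕ) : ℕ → List ℕ := fun r =>
  if r = 0 then tk n (3 * m + 1) 0 0 ++ dx (B 0) else if r = 1 then 0 :: dx (B 1) else B r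
/-- `x` deleted, its token inserted at the right end of block `0`, `x` at the left end of block `1` -/
def txz2 (n m : ℕ) (B : ℕ → List ℕ) : ℕ → List ℕ := fun r =>
  if r = 0 then dx (B 0) ++ tk n (3 * m + 1) 0 0 else if r = 1 then 0 :: dx (B 1) else B r

/-- **DET** (easy-medium; uses nothing).  Decomposition of equivalent words.
PROOF. The separators `3 r + 2`, `r ∈ R`, are the letters `≡ 2 (mod 3)` of the left word, each once, in the
order of `R`.  `RR.filter` with `a % 3 = 2`: the left side is the linear word `R.map (3 · + 2)`, LIN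
(`Pool.Agent.MVD.H10.lin`): the right side has the same separators in the same order.  DCM
(`Pool.Agent.MWE.H59.dcm`). -/
def DetStmt : Prop := ∀ (β : FIC) (R : List ℕ) (B : ℕ → List ℕ) (e w : List ℕ), Iso3 β → R.Nodup →
  (∀ r ∈ R, SFr (B r)) → SFr e → RR β (Bw R B ++ e) w →
    ∃ (B' : ℕ → List ℕ) (e' : List ℕ), w = Bw R B' ++ e' ∧ (∀ r, SFr (B' r)) ∧ SFr e'

/-- **BAZ** (medium-strong; uses PWL, NEZ; twin of BAS, Helper10_MWE/BAS.lean).  Basic facts about the words
equivalent to `ExZ n m R c X`.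
PROOF. `ExZ n m R c X = Bw R B0` with `B0 0 = KZ n z X`, `B0 1 = 0 c 3`, `B0 (d + 2) = [3 d + 1]`.  `sf`, `se` are
hypotheses.  `x0 .. ye`, `li`, `le`: `kp3` for `0`, `3` (blocks `0`, `1`) and `3 d + 1`, `d < m` (blocks `1`,
`d + 2`).  `z1`, `ze`: project to `z` and the separator `2` (rename `z ↦ 0`): the left word becomes
`0^(6n) 2` (all letters `z` are in block `0`), the right word `0^(N') 2 0^(N'')`; NEZ: `N'' = 0`, so there is no
`z` behind the separator of block `0`.  `ct`: `RR.content`.  `mu`: `0`, `3`, `3 d + 1` by the counts; a local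
letter or `z` which occurs in the right word occurs at least twice there: its projection is `[a]^k ~ [a]^k'`
with `k ≥ 2`, and `k' = 1` is impossible (linear words are isoterms, LIN).  `hv`: let `a` be `z` or local,
with exactly two occurrences in the right word which lie in different blocks (or block and tail): let
`t` be the separator of the block of the first one; the projection to `a`, `t` of the right word is
`a t a`, of the left word `a^k t` or `t a^k` (all `a` are in one block): contradiction to `Iso3`. -/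
def BazStmt : Prop := ∀ (n : ℕ) (β : FIC) (m : ℕ) (R c X : List ℕ) (B : ℕ → List ℕ) (e : List ℕ),
  Hz n β → Can m c → R.Perm (List.range (m + 2)) → Bfr R 0 1 → XX X → (∀ r, SFr (B r)) → SFr e →
    RR β (ExZ n m R c X) (Bw R B ++ e) → Bz m R c B e

/-- **LBZ** (medium-strong; uses LQI, LQR, LQG, BAZ).  The labels of `x`, `y` in block `0`.
PROOF. `R = R1 ++ 0 :: R2`, `g` := number of `z` in the blocks of `R1`, `f := cb (B 0) z v`,
`N := (B 0).count z`; by `z1`, `ze` there are no `z` behind block `0`.  (1) Project to `v`, `z` and the separator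
`2` (of block `0`; rename `z ↦ 0`, `v ↦ 3`): the left word becomes `cw i k` with `i ≡ lam v (mod n)`,
`i + k = 6n` (`X = [0,3]`: `n`, resp. `4n + 1`; `X = [3,0]`: `4n`, resp. `n + 1`), the right word
`cw (g + f) (N - f)`; LQI: `Lq i (g + f)`, so `Lq (g + f) (lam v)`.  (The count of `z` in the right word is at least
two: `mu`; it occurs by `Iso3`: a word `~ 0^(6n)` is not empty.)  (2) `Lq 0 g`: if `g = 0` LQR (1).  Otherwise
`R1 = R1' ++ [r1]`; project to `z` and the separator `3 r1 + 2` (rename to `2`): left word `2 0^(6n)`, right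
word `0^g 2 0^N`: LQG.  (3) Project to `z`: `0^(6n) ~ 0^(g+N)`, `ex`: `g + N ≡ 0`.  LQR (5) with `N`:
`Lq N (g + N)`, (4): `Lq N 0`.  LQR (5) with `f`: `Lq f (g + f)`, with (1): `Lq f (lam v)`. -/
def LbzStmt : Prop := ∀ (n : ℕ) (β : FIC) (m : ℕ) (R c X : List ℕ) (B : ℕ → List ℕ) (e : List ℕ),
  Hz n β → Can m c → R.Perm (List.range (m + 2)) → Bfr R 0 1 → XX X → (∀ r, SFr (B r)) → SFr e →
    RR β (ExZ n m R c X) (Bw R B ++ e) →
      (∀ v, v = 0 ∨ v = 3 → Lq n β (cb (B 0) (3 * m + 1) v) (lam v)) ∧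
        Lq n β ((B 0).count (3 * m + 1)) 0

/-- **UPZ** (medium; uses nothing).  The facts do not change under rearrangements and changes of the
number of `z` in block `0`.
PROOF. All fields are about counts and membership.  (1) counts in all blocks are the same.
(2) the counts of all letters `≠ z` are the same; `z` occurs at least twice in block `0`; `0 ∈ R`. -/
def UpzStmt : Prop := ∀ (m : ℕ) (R c : List ℕ) (B : ℕ → List ℕ) (e : List ℕ),
  R.Perm (List.range (m + 2)) →
  (∀ (r : ℕ) (D : List ℕ), D.Perm (B r) → (Bz m R c B e → Bz m R c (up B r D) e) ∧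
    (Bfz m R c B e → Bfz m R c (up B r D) e)) ∧
  (∀ e' : List ℕ, e'.Perm e → (Bz m R c B e → Bz m R c B e') ∧ (Bfz m R c B e → Bfz m R c B e')) ∧
  ∀ D : List ℕ, SFr D → (dz (3 * m + 1) D).Perm (dz (3 * m + 1) (B 0)) → 2 ≤ D.count (3 * m + 1) →
    (Bz m R c B e → Bz m R c (up B 0 D) e) ∧ (Bfz m R c B e → Bfz m R c (up B 0 D) e)

/-- **TRZ** (medium-strong; uses PWL, BAZ, TRH; twin of TRA, Helper23_MWE/TRA.lean).  Deletion and
insertion of the tokens.
PROOF. Delete `0` and `3` in both words (`RR.filter`); the left side becomes `Bw R B1` with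
`B1 0 = z^(6n)`, `B1 1 = c`; the blocks of the right side are filtered (the other blocks and `e` do not
contain `0`, `3`: BAZ).  TRH with `Lf 0 = KZ n z X'`, `Lf 1 = [0]`, `Rt 1 = [3]`; block `0` of the left side is
`KZ n z X' z^(6n) ~ KZ n z X'` (PWL: the last exponent is `2n - 1 ≥ 2` or `2n`).  The same with `3` only
(deleted: block `0` of the left side is `z^n 0 z^(2n) z^(3n)` or `z^(3n) z^n 0 z^(2n)`; insert
`tk n z 3 1` at the right or left end of block `0` and `3` at the right end of block `1`, adjust the exponents by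
PWL: all exponents are `≥ 2`), and with `0` only (insert `tk n z 0 0` and `0` at the left end of
block `1`). -/
def TrzStmt : Prop := ∀ (n : ℕ) (β : FIC) (m : ℕ) (R c X : List ℕ) (B : ℕ → List ℕ) (e : List ℕ),
  Hz n β → Can m c → R.Perm (List.range (m + 2)) → Bfr R 0 1 → XX X → (∀ r, SFr (B r)) → SFr e →
    RR β (ExZ n m R c X) (Bw R B ++ e) →
      (∀ X', XX X' → RR β (ExZ n m R c X') (Bw R (tbz n m B X') ++ e)) ∧
      RR β (ExZ n m R c [0, 3]) (Bw R (tyz1 n m B) ++ e) ∧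
      RR β (ExZ n m R c [3, 0]) (Bw R (tyz2 n m B) ++ e) ∧
      RR β (ExZ n m R c [0, 3]) (Bw R (txz1 n m B) ++ e) ∧
      RR β (ExZ n m R c [3, 0]) (Bw R (txz2 n m B) ++ e)

/-- **HWZ** (easy-medium; uses nothing).  The heavy letters of the word.
PROOF. `Bz.hv`: three occurrences, or two in the tail or in a block: take this block or tail as the factor
`G`; its letters are multiple by `mu` (they are not separators). -/
def HwzStmt : Prop := ∀ (m : ℕ) (R c : List ℕ) (B : ℕ → List ℕ) (e : List ℕ), Bz m R c B e →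
  ∀ a ∈ Bw R B ++ e, (a = 3 * m + 1 ∨ (a % 3 = 0 ∧ 6 ≤ a)) → Hw (Bw R B ++ e) a

/-- **PMZ** (medium; uses LCF, HHX, UPZ, HWZ; twin of SWO and PMV, Helper7_MWE, Helper6_MWE).
Rearrangements of block `0` which keep the order of `x`, `y`, `z`.
PROOF. PLM (`Pool.Agent.MWE.H11.plm`) with `P a = (a = 0 ∨ a = 3 ∨ a = z)` and
`E D := RR β (Bw R B ++ e) (Bw R (up B 0 D) ++ e)`.  Exchange of `a ≠ b`, not both with `P`: one of them is a
local letter `v ∈ c` (letters of block `0`: `0`, `3`, `z`, local; a light letter `3 d + 1`, `d < m`, is not in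
block `0` by `li`).  The other one is `0` or `3`: both are in block `1` (`fu`, `x1`, `y1`), which is behind
block `0`: LCF, first part, `g = B 1` (`mu` for the multiplicities).  The other one is `z` or local: HHX (HWZ
for the word with the block `D`, UPZ (1)). -/
def PmzStmt : Prop := ∀ (n : ℕ) (β : FIC) (m : ℕ) (R c : List ℕ) (B : ℕ → List ℕ) (e : List ℕ),
  Hz n β → Can m c → R.Perm (List.range (m + 2)) → Bfr R 0 1 → Bfz m R c B e →
    ∀ D : List ℕ, D.Perm (B 0) →
      D.filter (fun a => decide (a = 0 ∨ a = 3 ∨ a = 3 * m + 1)) =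
        (B 0).filter (fun a => decide (a = 0 ∨ a = 3 ∨ a = 3 * m + 1)) →
      RR β (Bw R B ++ e) (Bw R (up B 0 D) ++ e)

/-- **BLN** (medium-strong; uses PWL, FIL, CRO, LQR, UPZ, PMZ).  Block `0` is determined by the order of
`x`, `y`, the labels and the total number of `z`.
PROOF. Let `X0 = fxy (B 0) = [v1, v2]` (a rearrangement of `0`, `3`: `x0`, `y0`), `F` the list of the local letters
of `B 0`.  PMZ: `B 0 ~ z^(i0) v1 z^(i1) v2 z^(i2) F`, `i0, i2 ≥ 1` by `Tk2`, `cb = i0`, resp. `i0 + i1`;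
`D ~ z^(j0) v1 z^(j1) v2 z^(j2) F` (PMZ for the blocks `up B 0 D`, UPZ (3)), `F` up to a rearrangement.
FIL for `v1` (if `i1 ≥ 1`) resp. `it` (if `i1 = 0`: insert `z^n` between the `z` of `z^(i0)` and `z^(i2)`): we
may assume `i1, j1 ≥ 1`.  CRO for `v1` (`T` = everything between the block `0` part and the second `v1`,
beginning with `v2`): `z^(i0) v1 z^(i1) ~ z^(j0) v1 z^(l)` where `l ≥ 1`, `j0 + l ≡ i0 + i1`; labels
`Lq i0 j0`.  CRO for `v2` (left context ends with `z^(j0) v1`): `z^l v2 z^(i2) ~ z^(j1) v2 z^(j2)`: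
`Lq (i0 + i1) (j0 + j1)` gives `Lq (j0 + l) (j0 + j1)` (LQR (4)), so `Lq l j1` (LQR (5)); the totals
`l + i2 ≡ j1 + j2` because the totals of the blocks are congruent. -/
def BlnStmt : Prop := ∀ (n : ℕ) (β : FIC) (m : ℕ) (R c : List ℕ) (B : ℕ → List ℕ) (e : List ℕ),
  Hz n β → Can m c → R.Perm (List.range (m + 2)) → Bfr R 0 1 → Bfz m R c B e →
    ∀ D : List ℕ, SFr D → fxy D = fxy (B 0) →
      (dz (3 * m + 1) D).Perm (dz (3 * m + 1) (B 0)) →
      (∀ v, v = 0 ∨ v = 3 → Lq n β (cb (B 0) (3 * m + 1) v) (cb D (3 * m + 1) v)) →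
      (B 0).count (3 * m + 1) ≡ D.count (3 * m + 1) [MOD n] → Tk2 (3 * m + 1) (B 0) →
      Tk2 (3 * m + 1) D → RR β (Bw R B ++ e) (Bw R (up B 0 D) ++ e)

/-- **XCZ** (strong; uses nothing; twin of XCH, Helper66_MWE/XCH.lean, in helper41's new version).  Exchange
of the two tokens if block `1` is not of the form `x g y` with all letters of `c` in `g`.
PROOF. `R = R1 ++ 0 :: (R2 ++ 1 :: R3)`.  The word is
`p ++ (tk n z 0 0 ++ (tk n z 3 1 ++ (q ++ 0 :: (g ++ 3 :: r))))` with `p = Bw R1 B`,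
`q = E ++ 2 :: (Bw R2 B ++ A)`, `r = C ++ 5 :: (Bw R3 B ++ e)`.  The letters of `g` are in `c` (`ct`, `x1`, `y1`,
`z1`), repeated letters of `g` are repeated in `c` (`li`, `Can.lo`): `nr g ≤ nr c`.  (1) If `a ∈ c`, `a ∉ g`:
`nd g < nd c`, so `SmL g c`, `FZ n β g` by `IZ`; `Mult g` by `mu`.  (2) Otherwise let `A ≠ []`,
`A = A1 ++ v :: A2`; `v ∈ c`, so `v ∈ g`, so `v` is local; `k := g.count v ≥ 1`.  If `k = 1`: `nr g < nr c`
(`v` is repeated in `c` and not in `g`): `FZ n β g`.  If `k ≥ 2`: let `w1, …, wk` be new letters (different, not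
in the word), `g'` := `g` with its occurrences of `v` replaced by `w1, …, wk`: `nr g' < nr c`: `FZ n β g'`.
Choose `M` with `k ≤ n M`.  `it` (`M` times): behind the `v` of `A` the power `v^(nM)` may be inserted
(`w = []`, `w' = A2 ++ 0 :: g1` where `g1` is the part of `g` before its first `v`; all letters are
multiple), in both words (it does not touch block `0`).  `FZ n β g'` for the word in which `v v^(nM)` in `A` is
replaced by `w1 … wk v^(nM+1-k)` and `g` by `g'` (`Mult g'`: each `wj` occurs twice, the others as before);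
substitute `wj ↦ v`.  (3) `C ≠ []`: the same, `C = C1 ++ v :: C2`, `v^(nM)` is inserted before this `v`
(between it and the last `v` of `g`). -/
def XczStmt : Prop := ∀ (n : ℕ) (β : FIC) (m : ℕ) (R c : List ℕ) (B : ℕ → List ℕ) (e : List ℕ),
  Hz n β → Can m c → IZ n β c → R.Perm (List.range (m + 2)) → Bfr R 0 1 → Bz m R c B e →
    ∀ E A g C : List ℕ, B 0 = KZ n (3 * m + 1) [0, 3] ++ E → B 1 = A ++ 0 :: (g ++ 3 :: C) →
      ((∃ a ∈ c, a ∉ g) ∨ A ≠ [] ∨ C ≠ []) →
        RR β (Bw R B ++ e) (Bw R (up B 0 (KZ n (3 * m + 1) [3, 0] ++ E)) ++ e)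

/-- **CPZ** (strong; uses LQR, BAZ, LBZ, UPZ, TRZ, BLN, XCZ; twin of CPR, Helper19_MWE/CPR.lean).  Block `1` of
the words of the class.
PROOF. Let `B' = pz n z B` (`B' 1 = B 1`), `Bz B' e` by BAZ.
(a) all letters of `c` are in `B 1`: suppose `a ∈ c`, `a ∉ B 1`.  TRZ (1) for `B'` and both `X'`; XCZ for the
blocks `tbz n m B' [0, 3]` (`Bz` by BAZ), `E = dxy (B' 0)`, `A = C = []`, `g = dxy (B 1)`:
`ExZ [0,3] ~ tbz [0,3] ~ tbz [3,0] ~ ExZ [3,0]`: `EZ`, contradiction.
(b) block `1` contains `0` and `3` once.  Case `B 1 = A ++ 0 :: (g ++ 3 :: C)`.  If `A ≠ []` or a letter of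
`c` is not in `g ++ C`: `dy (B 1) ++ [3] = A ++ 0 :: ((g ++ C) ++ [3])`.  Let `U1 = tyz1 n m B'`,
`U2 = tyz2 n m B'` (`Bz` by BAZ, `Bfz` by (a)), `E = dxy (B' 0)`, `V1 = up U1 0 (KZ n z [0,3] ++ E)`,
`V2 = up U1 0 (KZ n z [3,0] ++ E)`.  `U1 ~ V1` and `U2 ~ V2` by BLN (same order of `x`, `y`; the labels in `U1`,
`U2` are equivalent to `lam v` by LBZ, the ones in `V1`, `V2` are congruent to `lam v` (`n`, `4n+1`; `n+1`,
`4n`); the totals are `N + 3n` and `6n + N`; `Tk2`: clear, `B' 0` begins and ends with `z^n`; `dz`: both are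
rearrangements of `0, 3` and the local letters), `V1 ~ V2` by XCZ (`Bz V1` by UPZ (3)).  With TRZ:
`ExZ [0,3] ~ U1 ~ V1 ~ V2 ~ U2 ~ ExZ [3,0]`: contradiction.  So `A = []` and all letters of `c` are in
`g ++ C`.  If `C ≠ []`: the same with `txz1`, `txz2`: block `1` is `0 :: dx (B 1) = 0 :: (g ++ 3 :: C)`
(XCZ with `A = []`, `C ≠ []`).  So `C = []`: the claim with `h = g` (`0, 3 ∉ g` by the counts; the letters of
`g` are in `c` by `ct`, `z1`).  Case `B 1 = A ++ 3 :: (g ++ 0 :: C)`: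
`dy (B 1) ++ [3] = (A ++ g) ++ 0 :: (C ++ [3])`: if `A ++ g ≠ []` or a letter of `c` is not in `C`: as before
with `tyz1`, `tyz2`.  Otherwise `B 1 = 3 :: 0 :: C`: with `txz1`, `txz2`: block `1` is
`0 :: dx (B 1) = 0 :: ([] ++ 3 :: C)`, the chain between is empty, `c ≠ []`: contradiction as before. -/
def CpzStmt : Prop := ∀ (n : ℕ) (β : FIC) (m : ℕ) (R c : List ℕ), Hz n β → Can m c → c ≠ [] →
  IZ n β c → R.Perm (List.range (m + 2)) → Bfr R 0 1 → ¬ EZ n β m R c → HbZ n β m R c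

/-- **CPB** (easy-medium; uses BAZ).  The base of the induction.
PROOF. `m = 1`, `z = 4`, `c = [1]`, `R = [0, 1, 2]`; `Can 1 [1]`.  `Bz` by BAZ (for `pz n 4 B`); block `1` contains
`0`, `3`, `1` once each and nothing else (`ct`: the letters are `0, 3, 4, 1`; `4 ∉ B 1` by `z1`).  Project both words to
`0`, `1` and the separators `2`, `5`: left word `0 2 0 1 5 1`; if `1` is before `0` in `B 1` the right word is
`0 2 1 0 5 1`: this is `S2 β` after renaming `1 ↦ 3` (look at the definition of `MVD.S2`): contradiction to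
`Hz.s2`.  So `0` is before `1`.  Project to `3`, `1`: left word `3 2 1 3 5 1`, and `3` before `1` would give
`3 2 3 1 5 1`: `S2 β` again.  So `B 1 = [0, 1, 3]`. -/
def CpbStmt : Prop := ∀ (n : ℕ) (β : FIC), Hz n β → HbZ n β 1 [0, 1, 2] [1]

/-- **ORZ** (medium; uses LQR, BAZ, LBZ, TRZ, BLN).  The order of `x`, `y` in block `0`.
PROOF. Let `B' = pz n z B`, `X0 = fxy (B 0)` (`XX X0` by `x0`, `y0`; `fxy (B' 0) = X0`).  TRZ (1) for `X' = X0`:
`ExZ X0 ~ W0 := tbz n m B' X0`; block `1` of `W0` is `B 1` (`HbZ`: `B 1 = 0 :: (h ++ [3])`, `dxy (B 1) = h`).  `Bfz W0`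
by BAZ and `HbZ`.  BLN from `W0` to `D = B' 0`: order `X0` in both, `dz`: rearrangements, labels by LBZ and
LQR (2), (3), totals `6 n + N` and `N`, `Tk2` for both.  `up W0 0 (B' 0)` and `B'` agree on `R`.  So
`ExZ X0 ~ B' ~ ExZ X`; if `X0 ≠ X` then `EZ` (or its symmetric form): contradiction. -/
def OrzStmt : Prop := ∀ (n : ℕ) (β : FIC) (m : ℕ) (R c X : List ℕ) (B : ℕ → List ℕ) (e : List ℕ),
  SitZ n β m R c → XX X → (∀ r, SFr (B r)) → SFr e →
    RR β (ExZ n m R c X) (Bw R (pz n (3 * m + 1) B) ++ e) → fxy (B 0) = X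

/-- **NFZ** (easy-medium; uses LCF, BAZ; twin of NFH, Helper76_MWE/NFH.lean).  The neighbours of `x` and `y` in
block `1` are not in block `0`.
PROOF. `Bz` for `pz n z B` (BAZ).  If `h = a :: h'` and `a ∈ B 0`: `0` and `a` are in block `0`
(`z^n (B 0) z^n`), which is before block `1`: LCF, second part, `g` = block `0`: the word with block `1` equal
to `a :: 0 :: (h' ++ [3])` is in the class; `HbZ`: its block `1` begins with `0`: `a = 0`, contradiction to
`0 ∉ h`.  In the same way the last letter of `h` and `3`. -/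
def NfzStmt : Prop := ∀ (n : ℕ) (β : FIC) (m : ℕ) (R c X : List ℕ) (B : ℕ → List ℕ) (e h : List ℕ),
  SitZ n β m R c → XX X → (∀ r, SFr (B r)) → SFr e →
    RR β (ExZ n m R c X) (Bw R (pz n (3 * m + 1) B) ++ e) → B 1 = 0 :: (h ++ [3]) →
      0 ∉ h → 3 ∉ h →
      (∀ (a : ℕ) (h' : List ℕ), h = a :: h' → a ∉ B 0) ∧
      (∀ (a : ℕ) (h' : List ℕ), h = h' ++ [a] → a ∉ B 0)

/-- **CL0** (strong; uses LQR, BAZ, LBZ, TRZ, BLN).  A step in block `0`.
PROOF. `B' = pz n z B`, `D = z^n α Y' γ z^n`, `X' = fxy (α ++ (Y' ++ γ))` (`XX X'` since this is a rearrangement of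
`B 0`).  TRZ (1): `ExZ X' ~ W := tbz n m B' X'`; block `1` of `W` is `B 1` (`HbZ`), `Bfz W`.  BLN from `W` to `D`:
orders `X'`, `dz`: rearrangements, totals `6 n + N`, `N` with `N = (B' 0).count z` (`Y'.Perm Y`), `Tk2`: clear.
Labels: `Lq (cb (W 0) z v) (lam v)` (LBZ) and `Lq (cb (B' 0) z v) (lam v)` (LBZ); CLAIM
`cb D z v ≡ cb (B' 0) z v (mod n)` for `v = 0, 3`; then LQR.  CLAIM: `v` occurs once in `B 0 = α Y γ`.  `v ∈ α`: the
numbers are equal.  `v ∈ γ`: `count z (z^n α) + count z Y + cb γ z v`, the same for `Y'`.  `v ∈ Y`: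
`Y.count v = 1`, `Qc`: `v ∈ Λ`, and (`h = z ≠ v`) `z ∈ Λ` or `cb Y z v ≡ cb Y' z v`; in the second case the claim
follows.  `z ∈ Λ` is impossible: `Rt`: `Λ` is a factor of `γ`: then `v` would be twice in `B 0`; of `e`:
`xe`, `ye`; of a block `r'` behind `0`: `v ∈ B r'`, so `r' = 1` (`xo`, `yo`), and `z ∉ B 1` (`z1`).
`pz n z (up B 0 (α ++ (Y' ++ γ)))` has block `0` equal to `D` and agrees with `up W 0 D` on `R`. -/
def Cl0Stmt : Prop := ∀ (n : ℕ) (β : FIC) (m : ℕ) (R c X : List ℕ) (B : ℕ → List ℕ) (e : List ℕ),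
  SitZ n β m R c → XX X → (∀ r, SFr (B r)) → SFr e →
    RR β (ExZ n m R c X) (Bw R (pz n (3 * m + 1) B) ++ e) →
      ∀ α Y Y' γ Λ : List ℕ, B 0 = α ++ (Y ++ γ) → Y.Perm Y' → Qc n Y Y' Λ → Rt R B e 0 γ Λ →
        ∃ X', XX X' ∧ RR β (ExZ n m R c X')
          (Bw R (pz n (3 * m + 1) (up B 0 (α ++ (Y' ++ γ)))) ++ e)

/-- **CL1** (medium-strong; uses PHX, BPX, BAZ, HWZ).  A step in block `1`.
PROOF. `B 1 = 0 :: (h ++ [3]) = α Y γ` (`HbZ`), its letters are `0`, `3`, light letters `3 d + 1` (`d < m`, once)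
and local letters (heavy, HWZ); `z ∉ B 1`.  If `Y` has no letter `0`, `3` or light letter: PHX.  Otherwise let `v`
be such a letter: `Y.count v = 1` (`x1`, `y1`, `li`), so `v ∈ Λ` (`Qc`), and `Λ` is not in `γ` (else `v` twice in
block `1`), not in `e` (`xe`, `ye`, `le`), so in `B r'` with `Bfr R 1 r'`; `r' ≠ 0` (`Bfr R 0 1`, `R` has no
repetitions), `r' ≠ 1`, so `v = 3 d + 1` and `r' = d + 2` (`xo`, `yo`, `li`).  So `d`, hence `v`, is unique:
all other letters of `Y` are local.  `Y = Y1 v Y2`, `Y' = Y1' v Y2'`; BPX: for a local letter `h ∈ Y`: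
`h ∈ Λ`: the factor `G = Λ` of the right context; otherwise the numbers: `cb Y h v = Y1.count h`. -/
def Cl1Stmt : Prop := ∀ (n : ℕ) (β : FIC) (m : ℕ) (R c X : List ℕ) (B : ℕ → List ℕ) (e : List ℕ),
  SitZ n β m R c → XX X → (∀ r, SFr (B r)) → SFr e →
    RR β (ExZ n m R c X) (Bw R (pz n (3 * m + 1) B) ++ e) →
      ∀ α Y Y' γ Λ : List ℕ, B 1 = α ++ (Y ++ γ) → Y.Perm Y' → Qc n Y Y' Λ → Rt R B e 1 γ Λ →
        RR β (ExZ n m R c X) (Bw R (pz n (3 * m + 1) (up B 1 (α ++ (Y' ++ γ)))) ++ e)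

/-- **CLP** (medium-strong; uses PHX, BPX, BAZ, HWZ).  A step in a place block or in the tail.
PROOF. (1) `r = d + 2`: the letters of `B r` are `v = 3 d + 1` (once), `z`, local letters (`ct`, `xo`, `yo`, `li`).
If `v ∉ Y`: all letters of `Y` are heavy (HWZ): PHX.  Otherwise `Y = Y1 v Y2`, `Y' = Y1' v Y2'`,
`Y.count v = 1`; BPX: a local letter `h` of `Y` and `v` are both in block `1` (`ct`: `h ∈ c`; `HbZ`; `li`):
`G = B 1`, a factor of the left or right context (as `r ≠ 1`).  `h = z`: `Qc`: `z ∈ Λ` is impossible: `v ∈ Λ`, `Rt`: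
`Λ` in `γ` gives `v` twice in block `r`; in `e`: `le`; in a block `r'` behind `r`: `v ∈ B r'`: `r' = 1` (`li`), and
`z ∉ B 1` (`z1`, `Bfr R 0 1`).  So the condition on the numbers.  (2) the tail: all letters are local (`xe`, `ye`,
`le`, `ze`, `ct`): PHX. -/
def ClpStmt : Prop := ∀ (n : ℕ) (β : FIC) (m : ℕ) (R c X : List ℕ) (B : ℕ → List ℕ) (e : List ℕ),
  SitZ n β m R c → XX X → (∀ r, SFr (B r)) → SFr e →
    RR β (ExZ n m R c X) (Bw R (pz n (3 * m + 1) B) ++ e) →
      (∀ r ∈ R, r ≠ 0 → r ≠ 1 → ∀ α Y Y' γ Λ : List ℕ, B r = α ++ (Y ++ γ) → Y.Perm Y' →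
        Qc n Y Y' Λ → Rt R B e r γ Λ →
          RR β (ExZ n m R c X) (Bw R (pz n (3 * m + 1) (up B r (α ++ (Y' ++ γ)))) ++ e)) ∧
      (∀ α Y Y' γ : List ℕ, e = α ++ (Y ++ γ) → Y.Perm Y' →
        RR β (ExZ n m R c X) (Bw R (pz n (3 * m + 1) B) ++ (α ++ (Y' ++ γ))))

end Pool.Agent.MWFE
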