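import Pool.Agent.MWE.Stmts
import Pool.Agent.Helper61_MWD.DispQ

/-!
# The identities FE and FE' (MP_23468a_al, squad MWFE): definitions

`β` is a fully invariant congruence with `xyx` an isoterm, modular lattice, exact period `n ≥ 2`, `F`, `F'`
for all words, insertion of `x^n` between two `x`, `x²y² ≈ y²x²`, `xtxsx ≈ x^(n+1)tx^(n+1)sx^(n+1)`, and
`x³yxty ≈ x²yx²ty` fails.  THEOREM: the first occurrences of `x`, `y` are exchanged over a power of `z`
(labels kept) if `x c y` occurs later and the letters of `c` are multiple.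

Letters: `x = 0`, `y = 3`, light letters `3 e + 1`, `e < m`, the heavy letter `z = 3 m + 1`, local letters
`3 j`, `2 ≤ j`, separators `3 r + 2`.  `ExZ n m R c X`: block `0` consists of the two tokens
`z^(n+l) v z^(2n-l)` (`l = 0` for `x`, `l = 1` for `y`) in the order `X`, block `1` is `x c y`, block
`e + 2` is the place of `3 e + 1`.
-/

set_option autoImplicit false

namespace Pool.Agent.MWFE

open Pool.Agent.Helper14_MV Pool.Agent.Helper2_MV Pool.Agent.MVD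
open Pool.Agent.MWE (Can XX fxy dxy dx dy up cp L4 pr Xs xl isx Fs nd nr)
open Pool.Agent.MWGR (cb)

/-- `z^i v z^k t v` with `z = 0`, `v = 3`, `t = 2` -/
def cw (i k : ℕ) : List ℕ := List.replicate i 0 ++ 3 :: (List.replicate k 0 ++ [2, 3])

/-- the labels `i`, `j` of a token are equivalent -/
def Lq (n : ℕ) (β : FIC) (i j : ℕ) : Prop := ∀ i' j' k l : ℕ, i' ≡ i [MOD n] → j' ≡ j [MOD n] →
  i' + k ≡ j' + l [MOD n] → 1 ≤ i' → 1 ≤ j' → 1 ≤ k → 1 ≤ l → RR β (cw i' k) (cw j' l)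

/-- the general hypotheses -/
structure Hz (n : ℕ) (β : FIC) : Prop where
  n2 : 2 ≤ n
  i3 : Iso3 β
  ff : FF β
  zz : ZZ β
  per : RR β [0, 0] (List.replicate (n + 2) 0)
  ex : ∀ i j : ℕ, 2 ≤ i → 2 ≤ j → RR β (List.replicate i 0) (List.replicate j 0) → i ≡ j [MOD n]
  it : MWGR.It n (RR β)
  r0 : MVD.R0 β
  ell : MWZ.L n (RR β)
  s2 : ¬ MVD.S2 β
  rc : ¬ RR β (cw 3 1) (cw 2 2)

/-- `v` is heavy in `w`: at least three occurrences, or two in a factor of multiple letters -/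
def Hw (w : List ℕ) (v : ℕ) : Prop :=
  3 ≤ w.count v ∨ ∃ a G b : List ℕ, w = a ++ (G ++ b) ∧ Mult G w ∧ 2 ≤ G.count v

/-- the token `v` with the label `l` -/
def tk (n z v l : ℕ) : List ℕ := List.replicate (n + l) z ++ v :: List.replicate (2 * n - l) z

/-- the labels of `x`, `y` -/
def lam (v : ℕ) : ℕ := if v = 3 then 1 else 0

/-- the tokens in the order `X` -/
def KZ (n z : ℕ) (X : List ℕ) : List ℕ := X.flatMap (fun v => tk n z v (lam v))

/-- the word with the tokens in the order `X` -/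
def ExZ (n m : ℕ) (R c X : List ℕ) : List ℕ := Eg R (KZ n (3 * m + 1) X) (0 :: (c ++ [3]))

/-- the exchange -/
def EZ (n : ℕ) (β : FIC) (m : ℕ) (R c : List ℕ) : Prop :=
  RR β (ExZ n m R c [0, 3]) (ExZ n m R c [3, 0])

/-- the exchange for the word `c`, all contexts -/
def FZ (n : ℕ) (β : FIC) (c : List ℕ) : Prop := ∀ (p q r : List ℕ) (z x y : ℕ), z ≠ x → z ≠ y →
  x ≠ y → Mult c (p ++ (tk n z x 0 ++ (tk n z y 1 ++ (q ++ x :: (c ++ y :: r))))) →
    RR β (p ++ (tk n z x 0 ++ (tk n z y 1 ++ (q ++ x :: (c ++ y :: r)))))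
      (p ++ (tk n z y 1 ++ (tk n z x 0 ++ (q ++ x :: (c ++ y :: r)))))

/-- `c'` is smaller than `c`: fewer repeated letters, or not more repeated letters and fewer
different letters -/
def SmL (c' c : List ℕ) : Prop := nr c' < nr c ∨ (nr c' ≤ nr c ∧ nd c' < nd c)

/-- the induction hypothesis -/
def IZ (n : ℕ) (β : FIC) (c : List ℕ) : Prop := ∀ c', SmL c' c → FZ n β c'

/-- block `0` with `z^n` at both ends -/
def pz (n z : ℕ) (B : ℕ → List ℕ) : ℕ → List ℕ :=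
  up B 0 (List.replicate n z ++ (B 0 ++ List.replicate n z))

/-- block `1` of the words of the class is `x h y`, the letters of `h` are the letters of `c` -/
def HbZ (n : ℕ) (β : FIC) (m : ℕ) (R c : List ℕ) : Prop :=
  ∀ (X : List ℕ) (B : ℕ → List ℕ) (e : List ℕ), XX X → (∀ r, SFr (B r)) → SFr e →
    RR β (ExZ n m R c X) (Bw R (pz n (3 * m + 1) B) ++ e) →
      ∃ h, B 1 = 0 :: (h ++ [3]) ∧ 0 ∉ h ∧ 3 ∉ h ∧ (∀ a ∈ c, a ∈ h) ∧ ∀ a ∈ h, a ∈ c

/-- the situation in the pentagon (proof by contradiction) -/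
structure SitZ (n : ℕ) (β : FIC) (m : ℕ) (R c : List ℕ) : Prop where
  hz : Hz n β
  can : Can m c
  ne : c ≠ []
  pR : R.Perm (List.range (m + 2))
  b01 : Bfr R 0 1
  no : ¬ EZ n β m R c
  hb : HbZ n β m R c

/-- the blocks `B r`, `r` in `R`, and the tail `e` of a word which is equivalent to `ExZ n m R c X` -/
structure Bz (m : ℕ) (R c : List ℕ) (B : ℕ → List ℕ) (e : List ℕ) : Prop where
  sf : ∀ r, SFr (B r)
  se : SFr e
  x0 : (B 0).count 0 = 1
  x1 : (B 1).count 0 = 1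
  xo : ∀ r ∈ R, r ≠ 0 → r ≠ 1 → 0 ∉ B r
  xe : 0 ∉ e
  y0 : (B 0).count 3 = 1
  y1 : (B 1).count 3 = 1
  yo : ∀ r ∈ R, r ≠ 0 → r ≠ 1 → 3 ∉ B r
  ye : 3 ∉ e
  li : ∀ d < m, ∀ r ∈ R, (B r).count (3 * d + 1) = if r = 1 ∨ r = d + 2 then 1 else 0
  le : ∀ d < m, 3 * d + 1 ∉ e
  z1 : ∀ r ∈ R, Bfr R 0 r → 3 * m + 1 ∉ B r
  ze : 3 * m + 1 ∉ e
  ct : ∀ a ∈ Bw R B ++ e, a % 3 ≠ 2 → a = 0 ∨ a = 3 ∨ a = 3 * m + 1 ∨ a ∈ c
  mu : ∀ a ∈ Bw R B ++ e, a % 3 ≠ 2 → 2 ≤ (Bw R B ++ e).count a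
  hv : ∀ a ∈ Bw R B ++ e, (a = 3 * m + 1 ∨ (a % 3 = 0 ∧ 6 ≤ a)) →
    3 ≤ (Bw R B ++ e).count a ∨ 2 ≤ e.count a ∨ ∃ r ∈ R, 2 ≤ (B r).count a

/-- `Bz`, and all letters of `c` are in block `1` -/
structure Bfz (m : ℕ) (R c : List ℕ) (B : ℕ → List ℕ) (e : List ℕ) : Prop
    extends Bz m R c B e where
  fu : ∀ a ∈ c, a ∈ B 1

/-- the tokens `x`, `y` stand between letters `z` -/
def Tk2 (z : ℕ) (D : List ℕ) : Prop :=
  ∀ v, v = 0 ∨ v = 3 → 1 ≤ cb D z v ∧ cb D z v < D.count z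

/-- without `z` -/
def dz (z : ℕ) (D : List ℕ) : List ℕ := D.filter (fun a => decide (a ≠ z))

/-- the labels are kept when `Y` is replaced by `Y'`: every letter which is once in `Y` is in `Λ`, and
every other letter is in `Λ` or has the same number of occurrences before it modulo `n` -/
def Qc (n : ℕ) (Y Y' Λ : List ℕ) : Prop := ∀ v, Y.count v = 1 → v ∈ Λ ∧ ∀ h, h ≠ v → h ∈ Λ ∨
  (cb Y h v ≡ cb Y' h v [MOD n] ∧ (cb Y h v = cb Y' h v ∨
    (1 ≤ cb Y h v ∧ cb Y h v < Y.count h ∧ 1 ≤ cb Y' h v ∧ cb Y' h v < Y'.count h)))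

/-- the power of a word -/
def pwr (k : ℕ) (w : List ℕ) : List ℕ := (List.replicate k w).flatten

/-- the tokens `A l` with the labels given by the heavy words `ζ 0`, `ζ 1`, `ζ 2` in the order `s` -/
def Yw (n : ℕ) (ζ A : ℕ → List ℕ) (s : List ℕ) : List ℕ := s.flatMap (fun l =>
  (List.range 3).flatMap (fun k => pwr (n + if k < l then 1 else 0) (ζ k)) ++
    (A l ++ (List.range 3).flatMap (fun k => pwr (2 * n - if k < l then 1 else 0) (ζ k))))

/-- `Λ` is a factor of the word with the blocks `B` and the tail `e` which lies behind the first part of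
block `r`, `γ` is the rest of block `r` -/
def Rt (R : List ℕ) (B : ℕ → List ℕ) (e : List ℕ) (r : ℕ) (γ Λ : List ℕ) : Prop :=
  (∃ a b, γ = a ++ (Λ ++ b)) ∨ (∃ r' ∈ R, Bfr R r r' ∧ ∃ a b, B r' = a ++ (Λ ++ b)) ∨
    ∃ a b, e = a ++ (Λ ++ b)

/-! ### the big words: four letters `x_i = 3 i`, three copies of the chain and of `z` -/

/-- the `k`-th copy of `z` -/
def hk (m k : ℕ) : ℕ := 3 * (3 * m + k) + 1

/-- the token `x_l` -/
def T4 (n m l : ℕ) : List ℕ :=
  (List.range 3).flatMap (fun k => List.replicate (n + if k < l then 1 else 0) (hk m k)) ++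
    3 * l :: (List.range 3).flatMap (fun k =>
      List.replicate (2 * n - if k < l then 1 else 0) (hk m k))

/-- the blocks of the big word -/
def Bq (n m : ℕ) (s c : List ℕ) : ℕ → List ℕ := fun r =>
  if r = 0 then s.flatMap (T4 n m) else if r = 1 then L4 c else Z3 r

/-- the big word -/
def FqZ (n m : ℕ) (R s c : List ℕ) : List ℕ := Bw R (Bq n m s c)

/-- the family: all projections, padded in block `0`, are in the class -/
def FamZ (n : ℕ) (β : FIC) (m : ℕ) (R c s w : List ℕ) : Prop :=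
  s.Perm [0, 1, 2, 3] ∧ ∃ (B : ℕ → List ℕ) (e : List ℕ), w = Bw R B ++ e ∧ (∀ r, SFr (B r)) ∧
    SFr e ∧ ∀ i k j : ℕ, i ≤ k → k < j → j ≤ 3 →
      RR β (ExZ n m R c (Xs i j s))
        (Bw R (pz n (3 * m + 1) (fun r => (B r).flatMap (pr i j k))) ++ e.flatMap (pr i j k))

end Pool.Agent.MWFE
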