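import Pool.Agent.MWFE.Defs

/-!
# Squad MWFE, part A: tools (statements with proofs)

Every row: file `Pool/Agent/HelperNN_MWFE/XXX.lean`, import `Pool.Agent.MWFE.StmtsA` (`StmtsB`,
`StmtsC`), namespace `Pool.Agent.MWFE.HNN`, theorem `xxx (hypotheses = rows in uses, in this order) :
XxxStmt`.  Proved rows of squad MWE which may be used without hypotheses: `Pool.Agent.MWE.H77.loc`
(LOC), `Pool.Agent.MWE.H11.plm` (PLM), `Pool.Agent.MWE.H10.fce` (FCE), `Pool.Agent.MWE.H59.dcm` (DCM),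
`Pool.Agent.MWE.H24.pna` (PNA), `Pool.Agent.MWD.H11.decF`, `uniF`, `facF`, `kp3`, `insF`,
`Pool.Agent.MVD.H10.lin` (LIN); tools `RR.sub`, `RR.append`, `RR.filter`, `RR.content`
(Helper2_MV/Keep.lean).
-/

set_option autoImplicit false

namespace Pool.Agent.MWFE

open Pool.Agent.Helper14_MV Pool.Agent.Helper2_MV Pool.Agent.MVD
open Pool.Agent.MWE (Can XX fxy dxy dx dy up cp L4 pr Xs xl isx Fs nd nr)
open Pool.Agent.MWGR (cb)

/-! ## Words -/

/-- **LCF** (easy; uses nothing).  Two adjacent letters which both occur in a factor `g` of multiple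
letters further right or further left are exchanged.
PROOF. `Pool.Agent.MWE.H77.loc`; `MWE.FC β c'` and `MWE.ZC β c'` hold for all `c'` by `FF β`, `ZZ β`
(the same formulas). -/
def LcfStmt : Prop := ∀ (β : FIC), FF β → ZZ β → ∀ (p q g r : List ℕ) (a b : ℕ), a ∈ g → b ∈ g →
  ((∀ d ∈ g, 2 ≤ (p ++ a :: b :: (q ++ (g ++ r))).count d) →
    RR β (p ++ a :: b :: (q ++ (g ++ r))) (p ++ b :: a :: (q ++ (g ++ r)))) ∧
  ((∀ d ∈ g, 2 ≤ (p ++ (g ++ (q ++ a :: b :: r))).count d) →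
    RR β (p ++ (g ++ (q ++ a :: b :: r))) (p ++ (g ++ (q ++ b :: a :: r))))

/-- **PWL** (easy; uses nothing).  Exponents modulo `n`.
PROOF. `per` substituted (`0 ↦ [v]`) and multiplied: `v^a ~ v^(a+n)` for `2 ≤ a`; induction; let
`a ≤ b` (or `b ≤ a`): `b = a + n k` (`Nat.ModEq`, `(Nat.modEq_iff_dvd' h)`); context `p`, `q`. -/
def PwlStmt : Prop := ∀ (n : ℕ) (β : FIC), Hz n β → ∀ (p q : List ℕ) (v a b : ℕ), a ≡ b [MOD n] →
  2 ≤ a → 2 ≤ b → RR β (p ++ (List.replicate a v ++ q)) (p ++ (List.replicate b v ++ q))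

/-- **SQP** (medium; uses LCF, PWL).  Powers with exponents `≥ 2` commute.
PROOF. `u = v`: `replicate_append_replicate`, `i + j = j + i`.  `i = j = 2`: `r0` substituted.  By
symmetry (exchange of `u` and `v`, `RR.symm`) let `i ≥ 3`.  (1) `u^i v^j = u^(i-2) (u²v²) v^(j-2) ~
u^(i-2) v v u u v^(j-2) ~ u^(i-2) v u^n v u u v^(j-2)` (`it` for `x = u`, between the last `u` of
`u^(i-2)` and the next `u`, with `w = [v]`, `w' = [v]`) `~ v u^(i-2+n) v u u v^(j-2)` (LCF: the first `v`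
moves to the left over `u^(i-2)`, both letters occur in the later factor `u^n v`) `~
v u^(i+n) v v^(j-2)` (LCF, second part: the second `v` moves to the right over `u u`, both letters occur in
the earlier factor `v u^(i-2+n)`).  So `u^i v^j ~ v u^(i+n) v^(j-1)`.  (2) In the same way `v^j u^i =
v^(j-2) (v²u²) u^(i-2) ~ v^(j-2) u u v v u^(i-2) ~ v^(j-2) u u v u^n v u^(i-2) ~
v^(j-2) u u v u^(n+i-2) v ~ v^(j-1) u^(i+n) v`.  (3) `v^(j-1) u^(i+n) v ~ v u^(i+n) v^(j-1)`: one letter `v`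
after the other from the left group is moved to the right: `v v u^M v`: the second `v` crosses the
letters `u` (LCF, later factor `u v` or earlier factor `v u`, `M ≥ 2`); induction on `j`. -/
def SqpStmt : Prop := ∀ (n : ℕ) (β : FIC), Hz n β → ∀ (u v i j : ℕ), 2 ≤ i → 2 ≤ j →
  RR β (List.replicate i u ++ List.replicate j v) (List.replicate j v ++ List.replicate i u)

/-- **THK** (medium; uses PWL).  Every occurrence of a heavy letter can be replaced by its power.
PROOF. If `3 ≤ count`: write the word as `w0 v w1 v w2 v w3` where the given `v` is one of the three.  `ell`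
substituted (`0 ↦ v, 2 ↦ w1, 3 ↦ w2`; look at the definition of `MWZ.L`): `v w1 v w2 v ~
v^(n+1) w1 v^(n+1) w2 v^(n+1) =: T`.  The word with the given `v` replaced by `v^(kn+1)` is
`v^(kn) (v w1 v w2 v)`, or `(v w1 v w2 v)` with `v^(kn)` inserted next to the second or third `v`: apply
`ell` to it as well with `w1` or `w2` extended by `v^(kn)` (e.g. `v w1 v^(kn) v w2 v ~
v^(n+1) w1 v^(kn) v^(n+1) w2 v^(n+1)`), and PWL: `~ T`.  If `w = a G b` and `2 ≤ G.count v` and the count of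
`v` in the word is `2`: the word is `a1 v g v b1`, `g` a factor of `G`, the given `v` is the first or the
second one: `it` with (`w = []`, `w' = g`) or (`w = g`, `w' = []`), `k` times (the count of the letters of
`g` does not decrease). -/
def ThkStmt : Prop := ∀ (n : ℕ) (β : FIC), Hz n β → ∀ (p q : List ℕ) (v k : ℕ),
  Hw (p ++ v :: q) v → RR β (p ++ v :: q) (p ++ (List.replicate (k * n + 1) v ++ q))

/-- **HHX** (medium; uses SQP, THK).  Adjacent heavy letters commute.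
PROOF. `u = v`: trivial.  `p u v q ~ p u^(n+1) v q` (THK with `k = 1`); `v` is heavy in this word too (the count
of `v` is the same; a factor `G` of the old word gives a factor of the new word: if the replaced `u`
lies in `G`, replace it there; the counts of letters do not decrease).  THK for `v`:
`~ p u^(n+1) v^(n+1) q ~ p v^(n+1) u^(n+1) q` (SQP, `n + 1 ≥ 2`) `~ p v u q` (THK backwards). -/
def HhxStmt : Prop := ∀ (n : ℕ) (β : FIC), Hz n β → ∀ (p q : List ℕ) (u v : ℕ),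
  Hw (p ++ u :: v :: q) u → Hw (p ++ u :: v :: q) v →
    RR β (p ++ u :: v :: q) (p ++ v :: u :: q)

/-- **PHX** (easy-medium; uses HHX).  A factor of heavy letters can be rearranged.
PROOF. `Pool.Agent.MWE.H11.plm` with `P = fun _ => false`, `E D := RR β (p ++ (Y ++ q)) (p ++ (D ++ q))`:
for `D = A ++ a :: b :: C` with `D.Perm Y` the letters `a`, `b` are heavy in `p ++ (D ++ q)`: `Hw` does not
change when `Y` is replaced by a rearrangement `D`: for the count this is clear; for a factor `G`: if `G`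
and `Y` overlap take the factor which consists of `G` and the whole `Y` (all letters of `Y` are heavy,
so multiple).  HHX.  (Or prove first: `Hw w v` iff `3 ≤ count` or two neighbouring occurrences of `v`
have only multiple letters between them.) -/
def PhxStmt : Prop := ∀ (n : ℕ) (β : FIC), Hz n β → ∀ (p q Y Y' : List ℕ), Y.Perm Y' →
  (∀ h ∈ Y, Hw (p ++ (Y ++ q)) h) → RR β (p ++ (Y ++ q)) (p ++ (Y' ++ q))

/-- **FIL** (easy-medium; uses PWL).  A letter `v` between letters `z`.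
PROOF. `it`: between the last `z` before `v` and the first `z` behind `v` the power `z^n` may be inserted
before `v` (`w = []`, `w' = [v]`) and behind `v` (`w = [v]`, `w' = []`); `v` is multiple by hypothesis
(its count is at least 2; it does not change).  So `z^i v z^j ~ z^(i+n) v z^j ~ z^(i+n) v z^(j+n)`; now all
exponents are `≥ 2` (`n ≥ 2`), PWL. -/
def FilStmt : Prop := ∀ (n : ℕ) (β : FIC), Hz n β → ∀ (p q : List ℕ) (z v i j i' j' : ℕ), v ≠ z →
  i ≡ i' [MOD n] → j ≡ j' [MOD n] → 1 ≤ i → 1 ≤ j → 1 ≤ i' → 1 ≤ j' →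
    2 ≤ (p ++ v :: q).count v →
      RR β (p ++ (List.replicate i z ++ v :: (List.replicate j z ++ q)))
        (p ++ (List.replicate i' z ++ v :: (List.replicate j' z ++ q)))

/-- **BPX** (strong; uses LCF, FIL, HHX, PHX).  One letter `v`, all other letters of the factor heavy.
PROOF. Induction on the number of occurrences by which `Y1` and `Y1'` differ,
`∑ h, |Y1.count h - Y1'.count h|` over the letters of `Y1 ++ Y2` (or induction on a list of the
different letters, treating one letter `h` after the other).  If all counts agree, `Y1.Perm Y1'` and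
`Y2.Perm Y2'`: PHX twice (`Y1` with the rest as context, then `Y2`; `Hw` of the letters is preserved as in
PHX).  Otherwise choose `h` with different counts.  (a) `h` and `v` occur in the factor `G` of `P` or
`Q`: if `Y1.count h > Y1'.count h` move one `h` to the right end of `Y1` (PHX) and exchange it with `v`
(LCF); if `<` in the same way from the left end of `Y2` (the count of `h` in `Y2` is positive since
the total counts agree).  (b) the counts are congruent and all four are positive: PHX: `Y1 ~ Z1 h^i`,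
`Y2 ~ h^j Z2` with `i = Y1.count h`, `j = Y2.count h`, FIL: `h^i v h^j ~ h^(i') v h^(j')` with
`i' = Y1'.count h`, `j' = Y2'.count h` (`i + j = i' + j'`).  The hypotheses for the new word: the counts of
the other letters do not change; `Hw` as in PHX. -/
def BpxStmt : Prop := ∀ (n : ℕ) (β : FIC), Hz n β → ∀ (P Q Y1 Y2 Y1' Y2' : List ℕ) (v : ℕ),
  v ∉ Y1 → v ∉ Y2 → 2 ≤ (P ++ (Y1 ++ v :: Y2) ++ Q).count v → (Y1 ++ Y2).Perm (Y1' ++ Y2') →
    (∀ h ∈ Y1 ++ Y2, Hw (P ++ (Y1 ++ v :: Y2) ++ Q) h) →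
    (∀ h ∈ Y1 ++ Y2,
      (∃ G a b : List ℕ, (P = a ++ (G ++ b) ∨ Q = a ++ (G ++ b)) ∧
        Mult G (P ++ (Y1 ++ v :: Y2) ++ Q) ∧ v ∈ G ∧ h ∈ G) ∨
      (Y1.count h ≡ Y1'.count h [MOD n] ∧ (Y1.count h = Y1'.count h ∨
        (1 ≤ Y1.count h ∧ 1 ≤ Y2.count h ∧ 1 ≤ Y1'.count h ∧ 1 ≤ Y2'.count h)))) →
      RR β (P ++ (Y1 ++ v :: Y2) ++ Q) (P ++ (Y1' ++ v :: Y2') ++ Q)

/-- **YQZ** (medium; uses nothing).  The tokens with labels.
PROOF. `Perm`: `s.flatMap f` and `s'.flatMap f` (`List.Perm.flatMap_right` or similar).  Let `Y.count v = 1`.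
For a letter `a` of `ζ k` the count in `Y` is at least `4 (n + 0) ≥ 8` (every `l` of the four contributes at
least `n ≥ 2` copies of `ζ k`): so `v` is not in `ζ 0, ζ 1, ζ 2`, hence in some `A l0`, `l0 ∈ s`, `l0 < 4`, so
`v ∈ Λ`, and `v ∉ A l` for `l ≠ l0`.  Let `h ≠ v`, `h ∉ Λ`: `h ∉ A l` for `l < 4`.  Let
`c k := (ζ k).count h`, `s = s1 ++ l0 :: s2`: `cb Y h v = ∑_{l ∈ s1} 3 n (c 0 + c 1 + c 2) +
∑_k (n + [k < l0]) c k` (the token of `l` has the count `∑_k (n + [k<l] + 2n - [k<l]) c k`, and `A l0` has no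
`h` before `v`).  So modulo `n` it is `∑_k (n + [k < l0]) c k`, for `s'` too.  If all `c k = 0` both are
`0`.  Otherwise `cb ≥ n c k ≥ 1`, and behind `v` in the token of `l0` there are at least
`(2n - 1) c k ≥ 1` letters `h`. -/
def YqzStmt : Prop := ∀ (n : ℕ) (ζ A : ℕ → List ℕ) (s s' Λ : List ℕ), 2 ≤ n →
  s.Perm [0, 1, 2, 3] → s'.Perm [0, 1, 2, 3] → (∀ l < 4, ∀ a ∈ A l, a ∈ Λ) →
    (Yw n ζ A s).Perm (Yw n ζ A s') ∧ Qc n (Yw n ζ A s) (Yw n ζ A s') Λ

/-! ## Labels -/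

/-- **CRO** (easy; uses nothing).  The crossing in all contexts.
PROOF. `RR.sub` with `0 ↦ [z]`, `3 ↦ [v]`, `2 ↦ T` for `RR β (cw i' k) (cw j' l)`, then `RR.append` with the
contexts (`flatMap` of `replicate`). -/
def CroStmt : Prop := ∀ (n : ℕ) (β : FIC) (i j : ℕ), Lq n β i j → ∀ (p T q : List ℕ)
  (z v i' j' k l : ℕ), i' ≡ i [MOD n] → j' ≡ j [MOD n] → i' + k ≡ j' + l [MOD n] → 1 ≤ i' →
    1 ≤ j' → 1 ≤ k → 1 ≤ l →
      RR β (p ++ (List.replicate i' z ++ v :: (List.replicate k z ++ (T ++ v :: q))))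
        (p ++ (List.replicate j' z ++ v :: (List.replicate l z ++ (T ++ v :: q))))

/-- **LQI** (easy-medium; uses PWL, FIL).  A relation gives the equivalence of the labels.
PROOF. Erase `3` and `2` in the relation: `0^(i+k) ~ 0^(j+l)`, `ex`: `i + k ≡ j + l`.  Let `i', j', k', l'` be as
in `Lq`.  Multiply by `0^n` from the left and substitute `2 ↦ 0^(n+c) 2` where `c` is chosen with
`k + c ≡ k'` (`c = (n - 1) k + k'`, so `k + c = n k + k'`): `cw (n+i) (k+n+c) ~ cw (n+j) (l+n+c)`.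
`l + c ≡ l'` since `j + l + c ≡ i + k + c ≡ i' + k' ≡ j' + l'`.  FIL (the letter `3` occurs twice in `cw`):
`cw i' k' ~ cw (n+i) (k+n+c)`, `cw (n+j) (l+n+c) ~ cw j' l'`. -/
def LqiStmt : Prop := ∀ (n : ℕ) (β : FIC), Hz n β → ∀ i k j l : ℕ, 2 ≤ i + k → 2 ≤ j + l →
  RR β (cw i k) (cw j l) → Lq n β i j

/-- **LQR** (easy-medium; uses FIL).  `Lq` is a congruence.
PROOF. (1) `i' ≡ j'` and `i' + k ≡ j' + l` give `k ≡ l`: FIL.  (2), (4) by definition.  (3) choose the
middle word `cw (j + n) t` with `t ≥ 1`, `i' + k ≡ j + n + t` (e.g. `t = i' + k + n (j + n) - (j + n) + n ..`;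
any number `t ≥ 1` in the residue class).  (5) `→`: given `Lq i j` and representatives `i', k, j', l` for
`i + c`, `j + c`: choose representatives `a ≥ 1` of `i`, `b ≥ 1` of `j` with `a + c ≡ i'`, take
`cw a k'' ~ cw b l''`, multiply by `0^c` from the left, adjust with FIL.  `←`: apply `→` with `c` replaced by
`(n - 1) c`: `i + c + (n-1) c = i + n c ≡ i`, and (4). -/
def LqrStmt : Prop := ∀ (n : ℕ) (β : FIC), Hz n β →
  (∀ i, Lq n β i i) ∧ (∀ i j, Lq n β i j → Lq n β j i) ∧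
  (∀ i j k, Lq n β i j → Lq n β j k → Lq n β i k) ∧
  (∀ i j i' j', i ≡ i' [MOD n] → j ≡ j' [MOD n] → Lq n β i j → Lq n β i' j') ∧
  ∀ i j c, Lq n β i j ↔ Lq n β (i + c) (j + c)

/-- **LQ1** (easy; uses LQR).  The labels `i`, `i + 1` are different.
PROOF. LQR (5): `Lq i (i+1)` gives `Lq 0 1` (with `c = i`), then `Lq 2 3` (`c = 2`), symmetric `Lq 3 2`; with
`i' = 3`, `k = 1`, `j' = 2`, `l = 2`: `RR β (cw 3 1) (cw 2 2)`: contradiction to `rc`. -/
def Lq1Stmt : Prop := ∀ (n : ℕ) (β : FIC), Hz n β → ∀ i, ¬ Lq n β i (i + 1)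

/-- **LQG** (easy; uses LQI).  Letters in an earlier block.
PROOF. Substitute `2 ↦ [3]` and append `[2, 3]`: `cw 0 N ~ cw g e`; LQI. -/
def LqgStmt : Prop := ∀ (n : ℕ) (β : FIC), Hz n β → ∀ N g e : ℕ, 2 ≤ N → 2 ≤ g + e →
  RR β (2 :: List.replicate N 0) (List.replicate g 0 ++ 2 :: List.replicate e 0) → Lq n β 0 g

/-- **NEZ** (medium; uses LCF, LQI, LQ1).  No letter `z` can be inserted behind a simple letter.
PROOF. Suppose `0^N 2 ~ 0^(N') 2 0^(N'')`, `N'' ≥ 1`.  Multiply by `0` from the left and append `3`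
inside (substitute `2 ↦ [2, 3]`): (A) `0^(N+1) 2 3 ~ 0^(N'+1) 2 3 0^(N'')`, and without the extra `0`:
(B) `0^N 2 3 ~ 0^(N') 2 3 0^(N'')`.  With `i = 1`: `cw 1 (N+1) = 0 3 0^(N+1) 2 3 ~ 0 3 0^(N'+1) 2 3 0^(N'')`
(A) `= 0 · 3 0 · 0^(N') 2 (3 0) 0^(N''-1) ~ 0 · 0 3 · 0^(N') 2 3 0^(N'')` (LCF, first part, `g = [3, 0]`, the
letters `0`, `3` are multiple) `~ 0 0 3 0^N 2 3 = cw 2 N` (B).  LQI: `Lq 1 2`: contradiction to LQ1. -/
def NezStmt : Prop := ∀ (n : ℕ) (β : FIC), Hz n β → ∀ N N' N'' : ℕ, 1 ≤ N'' →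
  ¬ RR β (List.replicate N 0 ++ [2]) (List.replicate N' 0 ++ 2 :: List.replicate N'' 0)

/-- **HVX** (easy-medium; uses LCF, PWL, HHX).  The exchange if one of the two tokens is heavy.
PROOF. Let `x` be heavy in the word (else `y`, in the same way).  `z` is heavy: it occurs twice in the factor
`z^(2n)` of multiple letters.  `x` commutes with `z` (HHX; `Hw` is preserved by the moves: the count of `x` is
at least 3, or `x` occurs twice in a factor of multiple letters: since `x` occurs in the tokens, in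
`x :: (c ++ [y])` and `Hw` gives `3 ≤ count` or two occurrences in one factor; it is convenient to show
first that `Hw` is kept) and with `y` (LCF, first part, `g = x :: (c ++ [y])`).  So both words are equivalent
to `p ++ z^(n+1+2n..) y z^(..) x ++ ..`: `z^n x z^(2n) z^(n+1) y z^(2n-1) ~ z^(4n+1) y z^(2n-1) x` and
`z^(n+1) y z^(2n-1) z^n x z^(2n) ~ z^(n+1) y z^(5n-1) x`; PWL. -/
def HvxStmt : Prop := ∀ (n : ℕ) (β : FIC), Hz n β → ∀ (p q c r : List ℕ) (z x y : ℕ), z ≠ x → z ≠ y →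
  x ≠ y → Mult c (p ++ (tk n z x 0 ++ (tk n z y 1 ++ (q ++ x :: (c ++ y :: r))))) →
    (3 ≤ (p ++ (tk n z x 0 ++ (tk n z y 1 ++ (q ++ x :: (c ++ y :: r))))).count x ∨
      3 ≤ (p ++ (tk n z x 0 ++ (tk n z y 1 ++ (q ++ x :: (c ++ y :: r))))).count y) →
    RR β (p ++ (tk n z x 0 ++ (tk n z y 1 ++ (q ++ x :: (c ++ y :: r)))))
      (p ++ (tk n z y 1 ++ (tk n z x 0 ++ (q ++ x :: (c ++ y :: r)))))

/-- **TRH** (easy-medium; uses nothing).  Insertion at the ends of the blocks, both words with a tail.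
PROOF. As row TRG of squad MWE (Helper11_MWE/TRGb.lean, `Pool.Agent.MWE.H11.trg`; copy the file): substitute
the separator `3 r + 2` (`r ∈ R`) by `Rt r ++ (3 r + 2) :: Lf r'`, `r'` the next element of `R`, and multiply
from the left by `Lf` of the first element; the tails have no separators. -/
def TrhStmt : Prop := ∀ (β : FIC) (R : List ℕ) (B B' Lf Rt : ℕ → List ℕ) (e e' : List ℕ), R.Nodup →
  (∀ r ∈ R, SFr (B r)) → (∀ r ∈ R, SFr (B' r)) → SFr e → SFr e' →
    RR β (Bw R B ++ e) (Bw R B' ++ e') →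
      RR β (Bw R (fun r => Lf r ++ (B r ++ Rt r)) ++ e) (Bw R (fun r => Lf r ++ (B' r ++ Rt r)) ++ e')

/-! ## Reductions -/

/-- **RCF** (medium; uses nothing; hypotheses without `Hz`).  If the crossing holds then FE follows from F.
PROOF. `hrc` is `x³yxty ≈ x²yx²ty`.  By substitution and multiplication (compare `rc_gen` in
Helper85_GN/I2.lean, theorem `Pool.Agent.Helper85_GN.rc_gen`, `RC` there is the same identity):
`x^(i+1) y x^j T y ~ x^i y x^(j+1) T y` for `i ≥ 2`, `j ≥ 1`.  Let `n ≥ 2`.  Left word: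
`x^n a x^(n+1) b x^n ~ x^(n+1) a x^n b x^n` (`x^n a x^(n+1) ~ x^(n+1) a x^n`: the crossing with `i = n`, `j = n`,
`T = b x^n q`) `~ x^(n+1) a b x^n` (`It` backwards, `w = [a]`, `w' = [b]`; `a`, `b` are multiple)
`~ x^(n+1) b a x^n` (F).  Right word: `x^(n+1) b x^(2n-1) a x^(n+1) ~ x^(n+1) b x^(2n) a x^n` (crossing of `a`
with `i = 2n - 1 ≥ 2`, `j = n`) `~ x^(n+1) b x^n a x^n` (`x² ≈ x^(n+2)`) `~ x^(n+1) b a x^n` (`It` backwards).
`n + (n - 1) * 1 = 2n - 1`.  For `n = 1`: `x a x² b x ~ x a b x ~ x² ..`: `It 1` inserts and deletes `x` between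
two `x`: `x a x x b x ~ x a b x ~ x b a x` (F) `~ x x b x a x x`. -/
def RcfStmt : Prop := ∀ (n : ℕ) (β : FIC), 1 ≤ n → MWZ.Per n (RR β) → MWGR.It n (RR β) → FF β →
  RR β (cw 3 1) (cw 2 2) → MWGR.FE n 1 (RR β)

/-- **EXR** (medium; uses nothing).  Reduction to the exact period.
PROOF. Let `D := {d ≥ 1 | RR β [0,0] (replicate (d + 2) 0)}`, `n ∈ D`, `d` the least element.  (1) If
`replicate i 0 ~ replicate j 0` with `2 ≤ i < j`: choose `t` with `i + t ≡ 2 (mod n)`, `i + t ≥ 2`; multiply: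
`0^(i+t) ~ 0^(j+t)`, `0^2 ~ 0^(i+t)` (period `n`), so `0^2 ~ 0^(2 + (j - i))` up to period `n`: `j - i ∈ D`.
(2) `D ∪ {0}` is closed under sums and differences (of elements `a > b`: `0^(b+2) ~ 0^2 ~ 0^(a+2)`, (1)):
so `d ∣ n` and `ex` for `d`.  (3) `d = 1`: then `x² ≈ x³`: `x³yxty = x·x²yxty..`: `cw 3 1 ~ cw 2 1` (`x³ ≈ x²`) `~
cw 2 2`: by `It n`: `x y x ~ x y x^n x = x y x^(n+1)`, and `x^(n+1) ≈ x²`: the crossing holds: contradiction to
`hrc`.  So `2 ≤ d`.  (4) `It d`: insert `x^n` by `It n` where `x^n ~ x^(n+d)` (`n ≥ 2` since `d ∣ n`), then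
`x^(n+d) = x^d x^n` and delete `x^n` by `It n` backwards (`w` replaced by `w ++ x^d`).  `L d`: `x^(n+1) ~ x^(d+1)`.
(5) `S2` gives the crossing: `x t x y s y ≈ x t y x s y`, `t := 1`, `s := x s`: `x x y x s y ≈ x y x x s y`, multiply
by `x`: `x³yxsy ≈ x²yx²sy`.  (6) `FE d 1` gives `FE n 1`: `x^(n+1) ~ x^(d+1)`, `x^n ~ x^d` (`2 ≤ d`),
`x^(2n-1) ~ x^(2d-1)`. -/
def ExrStmt : Prop := ∀ (n : ℕ) (β : FIC), 1 ≤ n → MWZ.Per n (RR β) → Iso3 β → MWGR.It n (RR β) →
  MWZ.R0 (RR β) → MWZ.L n (RR β) → FF β → ZZ β → ¬ RR β (cw 3 1) (cw 2 2) →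
    ∃ d, Hz d β ∧ (MWGR.FE d 1 (RR β) → MWGR.FE n 1 (RR β))

/-- **MIF** (easy-medium; uses nothing).  Mirror images.
PROOF. `Pool.Agent.MVD.H81.mir β` (row MIR of MVD: `mir β = FIC.op β`, `RR (mir β) l l' ↔
RR β l.reverse l'.reverse`, `ModF`, `Iso3`, `FF ↔ ZZ`, `R0`, `S2`).  `Per`, `L`: palindromes up to renaming of the
simple letters.  `It`: reverse, exchange of `w`, `w'` (reversed).  FE': reverse both words of `FE n 1` for the
letters `(x, b, a)`: the reversed left word of `FE'` is `p' x^n b x^(n+1) a x^n q' b w' a r'`, the reversed right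
word is `p' x^(n+1) a x^(n+(n-1)) b x^(n+1) q' b w' a r'`. -/
def MifStmt : Prop := ∀ (n : ℕ) (β : FIC),
  (ModF β → ModF (mir β)) ∧ (Iso3 β → Iso3 (mir β)) ∧ (MWZ.Per n (RR β) → MWZ.Per n (RR (mir β))) ∧
  (MWGR.It n (RR β) → MWGR.It n (RR (mir β))) ∧ (MWZ.R0 (RR β) → MWZ.R0 (RR (mir β))) ∧
  (MWZ.L n (RR β) → MWZ.L n (RR (mir β))) ∧ (FF β → ZZ (mir β)) ∧ (ZZ β → FF (mir β)) ∧
  (MWGR.FE n 1 (RR (mir β)) → MWGI.FE' n 1 (RR β))

end Pool.Agent.MWFE
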